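import Pool.Agent.Lib.MP_bbcd91_co.C5
import Pool.Agent.Lib.MP_bbcd91_co.A6

set_option autoImplicit false

namespace Pool.Agent.Results.MP_bbcd91_co.Correlations

open Configuration Pool.Agent.BB

/-- Let `P` be a projective plane of order `m^2+m` with a subplane `(S,T)` of order `m`, `m` odd.
Then no correlation `(α, β)` of `P` maps the points of the subplane to lines of the subplane. -/
theorem result {P L : Type*} [Membership P L] [ProjectivePlane P L] [Finite P] (m : ℕ)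
    (hm : Odd m) (S : Set P) (T : Set L) (hn : ProjectivePlane.order P L = m ^ 2 + m)
    (h1 : ∀ p ∈ S, ∀ q ∈ S, p ≠ q → ∃ l ∈ T, p ∈ l ∧ q ∈ l)
    (h2 : ∀ l ∈ T, ∀ l' ∈ T, l ≠ l' → ∃ p ∈ S, p ∈ l ∧ p ∈ l')
    (h3 : ∃ a ∈ S, ∃ b ∈ S, ∃ c ∈ S, ∃ d ∈ S,
        (¬ ∃ l : L, a ∈ l ∧ b ∈ l ∧ c ∈ l) ∧
        (¬ ∃ l : L, a ∈ l ∧ b ∈ l ∧ d ∈ l) ∧
        (¬ ∃ l : L, a ∈ l ∧ c ∈ l ∧ d ∈ l) ∧
        (¬ ∃ l : L, b ∈ l ∧ c ∈ l ∧ d ∈ l))
    (h4 : ∀ l ∈ T, Set.ncard {p : P | p ∈ S ∧ p ∈ l} = m + 1)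
    (α : P ≃ L) (β : L ≃ P) (hαβ : ∀ (p : P) (l : L), p ∈ l ↔ β l ∈ α p) :
    ¬ ∀ p ∈ S, α p ∈ T := by
  classical
  intro hS
  have hL : Finite L := finite_lines (P := P) (L := L)
  have h : Plane (fun (p : P) (l : L) => p ∈ l) (m ^ 2 + m) := by
    rw [← hn]
    exact plane_of
  have s : Sub (fun (p : P) (l : L) => p ∈ l) S T m := sub_of h1 h2 h3 h4
  exact no_correlation h s hm α β hαβ hS

end Pool.Agent.Results.MP_bbcd91_co.Correlations
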