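import Pool.Agent.Lib.MP_bbcd91_co.B2
import Pool.Agent.Lib.MP_bbcd91_co.A6

set_option autoImplicit false

namespace Pool.Agent.Results.MP_bbcd91_co.EvenOrder

open Configuration Pool.Agent.BB

/-- Let `P` be a projective plane of order `m^2+m` with a subplane `(S,T)` of order `m`, and `G` a
group of collineations of `P` leaving the subplane invariant. Then every involution of `G` is an
elation of `P` with centre in `S` and axis in `T`; and if the order of `G` is even, then `m` is even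
and `G` fixes a point of the subplane or a line of the subplane. -/
theorem result {P L : Type*} [Membership P L] [ProjectivePlane P L] [Finite P] (m : ℕ)
    (S : Set P) (T : Set L) (hn : ProjectivePlane.order P L = m ^ 2 + m)
    (h1 : ∀ p ∈ S, ∀ q ∈ S, p ≠ q → ∃ l ∈ T, p ∈ l ∧ q ∈ l)
    (h2 : ∀ l ∈ T, ∀ l' ∈ T, l ≠ l' → ∃ p ∈ S, p ∈ l ∧ p ∈ l')
    (h3 : ∃ a ∈ S, ∃ b ∈ S, ∃ c ∈ S, ∃ d ∈ S,
        (¬ ∃ l : L, a ∈ l ∧ b ∈ l ∧ c ∈ l) ∧
        (¬ ∃ l : L, a ∈ l ∧ b ∈ l ∧ d ∈ l) ∧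
        (¬ ∃ l : L, a ∈ l ∧ c ∈ l ∧ d ∈ l) ∧
        (¬ ∃ l : L, b ∈ l ∧ c ∈ l ∧ d ∈ l))
    (h4 : ∀ l ∈ T, Set.ncard {p : P | p ∈ S ∧ p ∈ l} = m + 1)
    (G : Subgroup (Equiv.Perm P))
    (hcol : ∀ g ∈ G, ∃ τ : Equiv.Perm L, ∀ p l, g p ∈ τ l ↔ p ∈ l)
    (hinv : ∀ g ∈ G, ∀ p ∈ S, g p ∈ S) :
    (∀ g ∈ G, orderOf g = 2 → ∃ c ∈ S, ∃ a ∈ T, c ∈ a ∧ (∀ p, g p = p ↔ p ∈ a) ∧
      ∀ l : L, c ∈ l → ∀ p ∈ l, g p ∈ l) ∧
    (Even (Nat.card G) → Even m ∧
      ((∃ c ∈ S, ∀ g ∈ G, g c = c) ∨ ∃ a ∈ T, ∀ g ∈ G, ∀ p ∈ a, g p ∈ a)) := by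
  classical
  have hL : Finite L := finite_lines (P := P) (L := L)
  have h : Plane (fun (p : P) (l : L) => p ∈ l) (m ^ 2 + m) := by
    rw [← hn]
    exact plane_of
  have s : Sub (fun (p : P) (l : L) => p ∈ l) S T m := sub_of h1 h2 h3 h4
  have hG : ∀ g ∈ lift (fun (p : P) (l : L) => p ∈ l) G,
      Col (fun (p : P) (l : L) => p ∈ l) g ∧ Pres S T g := fun g hg => pres_lift s hinv hg
  have hcard := card_lift h hcol
  refine ⟨?_, ?_⟩
  · intro g hg ho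
    obtain ⟨τ, hτ⟩ := hcol g hg
    have hm : (g, τ) ∈ lift (fun (p : P) (l : L) => p ∈ l) G := ⟨hg, fun p l => hτ p l⟩
    have hne : ((g, τ) : Equiv.Perm P × Equiv.Perm L) ≠ 1 := by
      intro e
      have e1 : g = 1 := congrArg Prod.fst e
      rw [e1, orderOf_one] at ho
      omega
    have hsq : ((g, τ) : Equiv.Perm P × Equiv.Perm L) * (g, τ) = 1 := by
      have e1 : g * g = 1 := by
        have := pow_orderOf_eq_one g
        rwa [ho, pow_two] at this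
      refine eq_one h ((hG _ hm).1.mul (hG _ hm).1) (fun p => ?_)
      show (g * g) p = p
      rw [e1]
      rfl
    obtain ⟨a, haT, c, hc, hca, hax, hcen, hoff⟩ :=
      inv_elation h s (hG _ hm).1 (hG _ hm).2 hne hsq
    refine ⟨c, hc, a, haT, hca, fun p => ⟨fun hp => hoff p hp, fun hp => hax p hp⟩, ?_⟩
    intro l hl p hp
    have e1 : g p ∈ τ l := (hτ p l).2 hp
    have e2 : τ l = l := hcen l hl
    rwa [e2] at e1
  · intro hev
    have hev' : Even (Nat.card (lift (fun (p : P) (l : L) => p ∈ l) G)) := by rwa [hcard]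
    refine ⟨?_, ?_⟩
    · by_contra hm
      rw [Nat.not_even_iff_odd] at hm
      have := odd_odd h s hG hm
      exact (Nat.not_even_iff_odd.2 this) hev'
    · rcases even_fix h s hG hev' with ⟨c, hc, hfix⟩ | ⟨a, ha, hfix⟩
      · left
        refine ⟨c, hc, fun g hg => ?_⟩
        obtain ⟨τ, hτ⟩ := hcol g hg
        exact hfix (g, τ) ⟨hg, fun p l => hτ p l⟩
      · right
        refine ⟨a, ha, fun g hg p hp => ?_⟩
        obtain ⟨τ, hτ⟩ := hcol g hg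
        have e1 : τ a = a := hfix (g, τ) ⟨hg, fun p l => hτ p l⟩
        have e2 : g p ∈ τ a := (hτ p a).2 hp
        rwa [e1] at e2

end Pool.Agent.Results.MP_bbcd91_co.EvenOrder
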