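import Pool.Agent.Lib.MP_bbcd91_co.E3

set_option autoImplicit false

namespace Pool.Agent.Results.MP_bbcd91_co.OrderBound

open Configuration Pool.Agent.BB

/-- Let `P` be a projective plane of order `m^2+m` with a subplane `(S,T)` of order `m`, and `G` a
group of collineations of `P` leaving the subplane invariant. Then the order of `G` divides
`m^6(m^2-1)(m^3-1)`, or there is such a plane with a subplane of an order `k` smaller than `m`. -/
theorem result {P L : Type} [Membership P L] [ProjectivePlane P L] [Finite P] (m : ℕ)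
    (S : Set P) (T : Set L) (hn : ProjectivePlane.order P L = m ^ 2 + m) (hS : IsSubplane m S T)
    (G : Subgroup (Equiv.Perm P))
    (hcol : ∀ g ∈ G, ∃ τ : Equiv.Perm L, ∀ p l, g p ∈ τ l ↔ p ∈ l)
    (hinv : ∀ g ∈ G, ∀ p ∈ S, g p ∈ S) :
    Nat.card G ∣ m ^ 6 * ((m ^ 2 - 1) * (m ^ 3 - 1)) ∨ ∃ k < m, Extremal k := by
  have hL : Finite L := finite_lines (P := P) (L := L)
  have h : Plane (fun (p : P) (l : L) => p ∈ l) (m ^ 2 + m) := by
    rw [← hn]
    exact plane_of
  have s : Sub (fun (p : P) (l : L) => p ∈ l) S T m := sub_of hS.join hS.meet hS.quad hS.card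
  rw [or_iff_not_imp_right]
  intro hmin
  push Not at hmin
  rw [← card_lift h hcol]
  exact order_bound h s hmin (fun g hg => pres_lift s hinv hg)

end Pool.Agent.Results.MP_bbcd91_co.OrderBound
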