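import Pool.Agent.Lib.MP_bbcd91_co.B3
import Pool.Agent.Lib.MP_bbcd91_co.A6

set_option autoImplicit false

namespace Pool.Agent.Results.MP_bbcd91_co.TwoPart

open Configuration Pool.Agent.BB

/-- Let `P` be a projective plane of order `m^2+m` with a subplane `(S,T)` of order `m`, and `G` a
group of collineations of `P` leaving the subplane invariant. Then every power of `2` dividing the
order of `G` divides `m^2`. -/
theorem result {P L : Type*} [Membership P L] [ProjectivePlane P L] [Finite P] (m : ℕ)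
    (S : Set P) (T : Set L) (hn : ProjectivePlane.order P L = m ^ 2 + m)
    (h1 : ∀ p ∈ S, ∀ q ∈ S, p ≠ q → ∃ l ∈ T, p ∈ l ∧ q ∈ l)
    (h2 : ∀ l ∈ T, ∀ l' ∈ T, l ≠ l' → ∃ p ∈ S, p ∈ l ∧ p ∈ l')
    (h3 : ∃ a ∈ S, ∃ b ∈ S, ∃ c ∈ S, ∃ d ∈ S,
        (¬ ∃ l : L, a ∈ l ∧ b ∈ l ∧ c ∈ l) ∧
        (¬ ∃ l : L, a ∈ l ∧ b ∈ l ∧ d ∈ l) ∧
        (¬ ∃ l : L, a ∈ l ∧ c ∈ l ∧ d ∈ l) ∧
        (¬ ∃ l : L, b ∈ l ∧ c ∈ l ∧ d ∈ l))
    (h4 : ∀ l ∈ T, Set.ncard {p : P | p ∈ S ∧ p ∈ l} = m + 1)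
    (G : Subgroup (Equiv.Perm P))
    (hcol : ∀ g ∈ G, ∃ τ : Equiv.Perm L, ∀ p l, g p ∈ τ l ↔ p ∈ l)
    (hinv : ∀ g ∈ G, ∀ p ∈ S, g p ∈ S) (k : ℕ) (hk : 2 ^ k ∣ Nat.card G) :
    2 ^ k ∣ m ^ 2 := by
  classical
  have hL : Finite L := finite_lines (P := P) (L := L)
  have h : Plane (fun (p : P) (l : L) => p ∈ l) (m ^ 2 + m) := by
    rw [← hn]
    exact plane_of
  have s : Sub (fun (p : P) (l : L) => p ∈ l) S T m := sub_of h1 h2 h3 h4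
  have hG : ∀ g ∈ lift (fun (p : P) (l : L) => p ∈ l) G,
      Col (fun (p : P) (l : L) => p ∈ l) g ∧ Pres S T g := fun g hg => pres_lift s hinv hg
  have hcard := card_lift h hcol
  exact two_part h s hG (by rwa [hcard])

end Pool.Agent.Results.MP_bbcd91_co.TwoPart
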